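import Pool.Agent.H15.FLX.Targets

/-!
MP_c62aed_lc, random CNFs, row GDX: scopes with `H1` are good.
-/

set_option autoImplicit false

namespace Pool.Agent.H15.FLX

open Finset
open Pool.Agent.H53.MC (Clause Falsified SatBy Line Circuit U Viol toC scope Ins cnt H1 Covers Ker
  Err InR Bad cf tau)

theorem card_mono {α : Type} [Finite α] {P Q : α → Prop} (h : ∀ x, P x → Q x) :
    Nat.card {x // P x} ≤ Nat.card {x // Q x} :=
  Nat.card_le_card_of_injective (fun x : {x // P x} => (⟨x.1, h x.1 x.2⟩ : {x // Q x}))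
    (fun _ _ hab => Subtype.ext (congrArg (fun z : {x // Q x} => z.1) hab))

theorem Few_mono {γ : ℝ} {n t s b a a' N : ℕ} (h : a ≤ a') (hf : Few γ n t s b a' N) :
    Few γ n t s b a N :=
  ⟨fun h1 h2 => lt_of_le_of_lt (Nat.mul_le_mul_left _ h) (hf.1 h1 h2),
    fun h1 => (Nat.mul_le_mul_left _ h).trans (hf.2 h1)⟩

theorem pf_GDX (hCLS : T_CLS) (hDL : T_DL) (hABX : T_ABX) (hARX : T_ARX) (hCRX : T_CRX) :
    T_GDX := by
  intro n k M μ γ t w d s₀ r q hP e hH
  obtain ⟨hinj, -, hcnf⟩ := hCLS (μ := μ) e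
  have h2 : ∀ (s : ℕ) (f : ℕ → (Fin n → Bool) → ℝ) (i : ℕ) (a : ℝ), i < s →
      Few γ n t s (Nat.card {x // f i x < a})
        (Nat.card {σ : Signs n M μ // DerivesR (cnf e σ) f t i a}) (Nat.card (Signs n M μ)) := by
    intro s f i a hi
    refine Few_mono (card_mono fun σ h => ?_) (hARX (en e) γ t w d s₀ r q hinj hH hP s f i a hi)
    rw [(hcnf σ).2] at h
    exact h
  refine ⟨?_, h2, ?_⟩
  · intro 𝓛 L
    refine Few_mono (card_mono fun σ h => ?_) (hABX (en e) γ t w d s₀ r q hinj hH hP 𝓛 L)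
    rw [(hcnf σ).2] at h
    exact hDL _ 𝓛 t L h
  · intro s h hC i a hi
    exact Few_mono (card_mono fun σ ha => hCRX (cnf e σ) t s h hP.t1 hC i a hi ha)
      (h2 s (fun j x => h j (SatBy x)) i a hi)

end Pool.Agent.H15.FLX
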