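import Pool.Agent.H15.FLX.FIN
import Pool.Agent.H5.FLX.CHX
import Pool.Agent.H14.FLX.CLS
import Pool.Agent.H14.FLX.RS
import Pool.Agent.H19.FLX.LFX
import Pool.Agent.H19.FLX.SUB
import Pool.Agent.H25.FLX.CRX
import Pool.Agent.H25.FLX.EBX
import Pool.Agent.H27.FLX.HTX
import Pool.Agent.H31.FLX.ARX
import Pool.Agent.H36.FLX.ABX
import Pool.Agent.H40.FLX.EXX
import Pool.Agent.H75.FLX.NMX
import Pool.Agent.H80.FLX.PRX
import Pool.Agent.H97.FLX.DL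
import Pool.Agent.H97.FLX.KRX

/-!
MP_c62aed_lc, random CNFs: composition of the rows.
-/

set_option autoImplicit false

namespace Pool.Agent.H15.FLX

theorem main : Main :=
  have hL : T_LFX := Pool.Agent.H19.FLX.pf_LFX pf_RS
  have hH : T_HTX := Pool.Agent.H27.FLX.pf_HTX pf_RS
  pf_FIN
    (pf_GDX pf_CLS pf_DL (Pool.Agent.H36.FLX.pf_ABX hL hH)
      (pf_ARX hL hH pf_KRX Pool.Agent.H25.FLX.pf_EBX Pool.Agent.H80.FLX.pf_PRX)
      Pool.Agent.H25.FLX.pf_CRX)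
    (Pool.Agent.H40.FLX.pf_EXX Pool.Agent.H19.FLX.pf_SUB) Pool.Agent.H75.FLX.pf_NMX
    Pool.Agent.H5.FLX.pf_CHX

end Pool.Agent.H15.FLX
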