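import Pool.Agent.H15.FLX.Stmt
import Pool.Agent.H53.MC.Targets

/-!
MP_c62aed_lc: definitions used in the proof (not in the statement) of `Pool.Agent.H15.FLX.Main`.
-/

set_option autoImplicit false

namespace Pool.Agent.H15.FLX

open Finset
open Pool.Agent.H53.MC (Clause Falsified SatBy Line Circuit U Viol toC scope Ins cnt H1 Covers Ker
  Err InR Bad cf tau)

/-- The enumeration of the scopes. -/
noncomputable def en {n k M : ℕ} (e : Scopes n k M) : Fin M → Fin k → Fin n :=
  fun j i => (e j).1.orderEmbOfFin (e j).2 i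

/-- The number of a clause. -/
def idx {M μ : ℕ} : Fin (M * μ) → Fin M × Fin μ := finProdFinEquiv.symm

/-- The formula as a tuple of elements of the universe: the clause `j` is violated by `x` when
`x (g a i) = !σ j (g a i)` for all `i`, where `a = j.1`. -/
def FG {n k M μ : ℕ} (g : Fin M → Fin k → Fin n) (σ : Signs n M μ) : Fin (M * μ) → U M k :=
  fun m => ((idx m).1, fun i => !(σ (idx m) (g (idx m).1 i)))

section

variable {n k M : ℕ} (g : Fin M → Fin k → Fin n)

open Classical in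
/-- The assignments outside of `E` for which the value of `f` is less than `a`. -/
noncomputable def BR (E : Finset (Fin n → Bool)) (f : (Fin n → Bool) → ℝ) (a : ℝ) :
    Finset (Fin n → Bool) :=
  univ.filter fun x => x ∉ E ∧ f x < a

open Classical in
/-- The exceptions of the functions before the function `i`. -/
noncomputable def ER (r w : ℕ) (f : ℕ → (Fin n → Bool) → ℝ) : ℕ → Finset (Fin n → Bool)
  | 0 => ∅
  | i + 1 => ER r w f i ∪ univ.filter fun x => ∃ a : ℝ, x ∈ Err g r w (BR (ER r w f i) (f i) a)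

/-- The chain of the kernels of the function `i`. -/
def KR (r w : ℕ) (f : ℕ → (Fin n → Bool) → ℝ) (i : ℕ) :
    Set (Set (Finset (Fin n) × (Fin n → Bool))) :=
  {K | ∃ a : ℝ, K = Ker g r w (BR (ER g r w f i) (f i) a)}

end

/-- The conditions on the parameters. -/
structure ParX (γ : ℝ) (n t k μ w d s₀ r q : ℕ) : Prop where
  t1 : 1 ≤ t
  nt : n ≤ t
  k1 : 1 ≤ k
  kn : k ≤ n
  d1 : 1 ≤ d
  w1 : 1 ≤ w
  wn : w ≤ n
  q1 : 1 ≤ q
  rr : t + t * q ≤ r
  γ1 : γ ≤ 1
  tau4 : 4 * (tau n r w d s₀ : ℝ) ≤ 2 ^ ((1 - γ) * n)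
  cov : 4 * (q * 2 ^ (n - k)) < 2 ^ n
  bad : 2 ^ (n + t + 2) * (s₀ * μ) ^ (q + 1) ≤ (2 ^ k) ^ (q + 1)
  hit : 4 * (t * (s₀ * μ)) ≤ 2 ^ k

end Pool.Agent.H15.FLX
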