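import Pool.Agent.H15.FLX.Targets
import Pool.Agent.H15.FLX.GDX

/-!
MP_c62aed_lc, random CNFs, row FIN: the final statement.
-/

set_option autoImplicit false

namespace Pool.Agent.H15.FLX

open Finset
open Pool.Agent.H53.MC (Clause Falsified SatBy Line Circuit U Viol toC scope Ins cnt H1 Covers Ker
  Err InR Bad cf tau)

theorem pf_FIN (hGDX : T_GDX) (hEXX : T_EXX) (hNMX : T_NMX) (hCHX : T_CHX) : T_FIN := by
  obtain ⟨C, hC⟩ := hNMX
  refine ⟨C + 4, fun ε β n t k M μ h0 hεβ hβ ht hnt h1 h2 => ⟨fun h3 h4 => ?_, fun h5 e => ?_⟩⟩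
  · have hl0 : (0 : ℝ) ≤ Nat.log 2 t := Nat.cast_nonneg _
    have hk0 : (0 : ℝ) ≤ k := Nat.cast_nonneg _
    have h1' : (C : ℝ) * Nat.log 2 t ≤ ε ^ 3 * k := by
      push_cast at h1
      nlinarith
    have h2' : (C : ℝ) * k ≤ ε * n := by
      push_cast at h2
      nlinarith
    have h4' : C * t ^ 2 * μ ≤ 2 ^ k := by
      refine le_trans ?_ h4
      gcongr
      omega
    obtain ⟨w, d, s₀, r, q, hP, hw, hs⟩ := hC ε β n t k μ h0 hεβ hβ ht hnt h1' h2' h4'
    refine le_trans (Nat.mul_le_mul_left _ (card_mono fun e he hH => ?_))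
      (hEXX ε β n k M w s₀ h0 (h0.trans hεβ) hw h3 hs)
    exact he (hGDX (β - ε) t w d s₀ r q hP e hH)
  · refine hCHX ε n t k M μ h0 (hεβ.le.trans hβ) (by omega) hnt ?_ e
    refine le_trans ?_ h5
    have hC0 : (0 : ℝ) ≤ C := Nat.cast_nonneg _
    push_cast
    have ht0 : (0 : ℝ) ≤ t := Nat.cast_nonneg _
    have : (0 : ℝ) ≤ t * 2 ^ k := by positivity
    nlinarith

end Pool.Agent.H15.FLX
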