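import Pool.Agent.H53.MC.Stmt

/-!
MP_c62aed_lc: random CNFs, fixed lines, fixed left sides and monotone real circuits.
The definitions used by the statement. `Clause`, `Falsified`, `SatBy`, `Line` and `Circuit` are
those of `Pool/Agent/H53/MC/Stmt.lean`.
-/

set_option autoImplicit false

namespace Pool.Agent.H15.FLX

open Pool.Agent.H53.MC (Clause Falsified SatBy Line Circuit)

/-- `M` sets of `k` of the `n` variables, the scopes. -/
abbrev Scopes (n k M : ℕ) : Type := Fin M → {A : Finset (Fin n) // A.card = k}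

/-- The signs of `μ` clauses on each of the `M` scopes: for each clause a sign for every variable
(only the signs of the variables of its scope are used). -/
abbrev Signs (n M μ : ℕ) : Type := Fin M × Fin μ → Fin n → Bool

/-- The clause number `j`: its literals are `(i, σ j i)` for the variables `i` of the scope `j.1`.
The literal `(i, b)` is true when the variable `x_i` has the value `b`. -/
def clause {n k M μ : ℕ} (e : Scopes n k M) (σ : Signs n M μ) (j : Fin M × Fin μ) : Clause n :=
  (e j.1).1.image fun i => (i, σ j i)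

/-- The CNF with the scopes `e` and the signs `σ`, the set of its clauses. -/
def cnf {n k M μ : ℕ} (e : Scopes n k M) (σ : Signs n M μ) : Set (Clause n) :=
  Set.range (clause e σ)

/-- The lines of the family `𝓛` which can be derived from the CNF `Φ`: the line `L` of `𝓛` is
derived if it follows from at most `t` derived lines and at most `t` clauses of `Φ`. -/
inductive DerivesL {n : ℕ} (Φ : Set (Clause n)) (𝓛 : Finset (Line n)) (t : ℕ) : Line n → Prop
  | step (L : Line n) (P : Finset (Line n)) (T : Finset (Clause n)) : L ∈ 𝓛 → P.card ≤ t →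
      (∀ Q ∈ P, DerivesL Φ 𝓛 t Q) → T.card ≤ t → (∀ c ∈ T, c ∈ Φ) →
      (∀ x, (∀ Q ∈ P, x ∈ Q) → (∀ c ∈ T, ¬ Falsified c x) → x ∈ L) → DerivesL Φ 𝓛 t L

/-- The inequalities `f i ≥ a`, with a real function `f i` of the assignment and a real number `a`,
which can be derived from the CNF `Φ`: `f i ≥ a` is derived if it follows from at most `t` derived
inequalities `f j ≥ b` with `j < i` and at most `t` clauses of `Φ`. -/
inductive DerivesR {n : ℕ} (Φ : Set (Clause n)) (f : ℕ → (Fin n → Bool) → ℝ) (t : ℕ) :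
    ℕ → ℝ → Prop
  | step (i : ℕ) (a : ℝ) (P : Finset (ℕ × ℝ)) (T : Finset (Clause n)) : P.card ≤ t →
      (∀ p ∈ P, p.1 < i) → (∀ p ∈ P, DerivesR Φ f t p.1 p.2) → T.card ≤ t → (∀ c ∈ T, c ∈ Φ) →
      (∀ x, (∀ p ∈ P, p.2 ≤ f p.1 x) → (∀ c ∈ T, ¬ Falsified c x) → a ≤ f i x) →
      DerivesR Φ f t i a

/-- `s` objects exclude `b` of the `2 ^ n` assignments for `a` of the `N` formulas. If
`s ≤ 2 ^ (γ n)` and at least half of the assignments are excluded, then `a / N < 2 ^ (-t)`; if
more than `s 2 ^ ((1 - γ) n)` assignments are excluded, then `a / N ≤ 1 / t`. -/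
def Few (γ : ℝ) (n t s b a N : ℕ) : Prop :=
  ((s : ℝ) ≤ 2 ^ (γ * n) → 2 ^ n ≤ 2 * b → 2 ^ t * a < N) ∧
    ((s : ℝ) * 2 ^ ((1 - γ) * n) < b → t * a ≤ N)

/-- The scopes `e` are good: for random signs of `μ` clauses on each scope, few of the CNFs
(1) allow to derive a given line `L` with a given family `𝓛` of lines,
(2) allow to derive a given inequality `f i ≥ a` with given functions `f 0, .., f (s - 1)`,
(3) are accepted by a given monotone real circuit with `s` gates of fan-in at most `t` (the gate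
`i` accepts when its value is at least `a`), where `b` is the number of the assignments `x` for
which the set of all clauses satisfied by `x` is rejected. -/
def Good {n k M : ℕ} (γ : ℝ) (t μ : ℕ) (e : Scopes n k M) : Prop :=
  (∀ (𝓛 : Finset (Line n)) (L : Line n), Few γ n t 𝓛.card (Nat.card {x // x ∉ L})
    (Nat.card {σ : Signs n M μ // DerivesL (cnf e σ) 𝓛 t L}) (Nat.card (Signs n M μ))) ∧
  (∀ (s : ℕ) (f : ℕ → (Fin n → Bool) → ℝ) (i : ℕ) (a : ℝ), i < s →
    Few γ n t s (Nat.card {x // f i x < a})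
      (Nat.card {σ : Signs n M μ // DerivesR (cnf e σ) f t i a}) (Nat.card (Signs n M μ))) ∧
  ∀ (s : ℕ) (h : ℕ → Set (Clause n) → ℝ), Circuit t s h → ∀ (i : ℕ) (a : ℝ), i < s →
    Few γ n t s (Nat.card {x // h i (SatBy x) < a})
      (Nat.card {σ : Signs n M μ // a ≤ h i (cnf e σ)}) (Nat.card (Signs n M μ))

/-- The final statement. -/
def Main : Prop :=
  ∃ C : ℕ, ∀ (ε β : ℝ) (n t k M μ : ℕ), 0 < ε → ε < β → β ≤ 1 → 2 ≤ t → n ≤ t →
    C * Nat.log 2 t ≤ ε ^ 3 * k → C * k ≤ ε * n →
      (M * β ^ k ≤ 2 ^ (-(ε * k)) → C * t ^ 2 * μ ≤ 2 ^ k →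
        2 ^ n * Nat.card {e : Scopes n k M // ¬ Good (β - ε) t μ e} ≤
          Nat.card (Scopes n k M)) ∧
      (C * t * 2 ^ k ≤ ε ^ 2 * M * μ → ∀ e : Scopes n k M,
        2 ^ t * Nat.card {σ : Signs n M μ // ∃ x, (Nat.card {j // Falsified (clause e σ j) x} : ℝ) <
          (1 - ε) * M * μ / 2 ^ k} ≤ Nat.card (Signs n M μ))

end Pool.Agent.H15.FLX
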