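import Pool.Agent.H15.FLX.Defs

/-!
MP_c62aed_lc, random CNFs: the rows. Old rows with old proofs: `Pool/Agent/H53/MC/*.lean`.
-/

set_option autoImplicit false

namespace Pool.Agent.H15.FLX

open Finset
open Pool.Agent.H53.MC (Clause Falsified SatBy Line Circuit U Viol toC scope Ins cnt H1 Covers Ker
  Err InR Bad cf tau)

/-! ### Bridges to the old definitions -/

/-- CLS: the clauses of the statement are the clauses of the tuple `FG`. -/
def T_CLS : Prop :=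
  ∀ {n k M μ : ℕ} (e : Scopes n k M), (∀ j, Function.Injective (en e j)) ∧
    (∀ j, scope (en e) j = (e j).1) ∧ ∀ σ : Signs n M μ,
      (∀ m : Fin (M * μ), cf (en e) (FG (en e) σ) m = clause e σ (idx m)) ∧
      cnf e σ = Set.range (cf (en e) (FG (en e) σ))

/-- DL: derivations from the set of the clauses are derivations from the tuple. -/
def T_DL : Prop :=
  ∀ {n m : ℕ} (G : Fin m → Clause n) (𝓛 : Finset (Line n)) (t : ℕ) (L : Line n),
    DerivesL (Set.range G) 𝓛 t L → Pool.Agent.H53.MC.Derives G 𝓛 t L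

/-! ### Counting the signs -/

/-- RS: the number of the signs for which the formula contains `T`. -/
def T_RS : Prop :=
  ∀ {n k M μ : ℕ} (g : Fin M → Fin k → Fin n), (∀ j, Function.Injective (g j)) →
    ∀ T : Finset (U M k), Nat.card {σ : Signs n M μ // InR (FG g σ) T} * (2 ^ k) ^ T.card ≤
      μ ^ T.card * Nat.card (Signs n M μ)

/-- LFX: few signs are bad for a chain. -/
def T_LFX : Prop :=
  ∀ {n k M μ : ℕ} (g : Fin M → Fin k → Fin n) (w s₀ q : ℕ), (∀ j, Function.Injective (g j)) →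
    H1 g w s₀ → ∀ 𝒦 : Set (Set (Finset (Fin n) × (Fin n → Bool))), IsChain (· ⊆ ·) 𝒦 →
      (∀ K ∈ 𝒦, ∀ p ∈ K, p.1.card < w) →
      Nat.card {σ : Signs n M μ // Bad g q 𝒦 (FG g σ)} * (2 ^ k) ^ (q + 1) ≤
        (s₀ * μ) ^ (q + 1) * Nat.card (Signs n M μ)

/-- HTX: few signs hit `p`. -/
def T_HTX : Prop :=
  ∀ {n k M μ : ℕ} (g : Fin M → Fin k → Fin n) (w s₀ : ℕ), (∀ j, Function.Injective (g j)) →
    H1 g w s₀ → ∀ p : Finset (Fin n) × (Fin n → Bool), p.1.card < w →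
      Nat.card {σ : Signs n M μ // ∃ j, Ins g p (FG g σ j)} * 2 ^ k ≤
        s₀ * μ * Nat.card (Signs n M μ)

/-- CHX: Chernoff and the union bound. -/
def T_CHX : Prop :=
  ∀ (ε : ℝ) (n t k M μ : ℕ), 0 < ε → ε ≤ 1 → 1 ≤ t → n ≤ t → 4 * t * 2 ^ k ≤ ε ^ 2 * M * μ →
    ∀ e : Scopes n k M,
      2 ^ t * Nat.card {σ : Signs n M μ // ∃ x, (Nat.card {j // Falsified (clause e σ j) x} : ℝ) <
        (1 - ε) * M * μ / 2 ^ k} ≤ Nat.card (Signs n M μ)

/-! ### Counting the scopes -/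

/-- SUB: the number of the `k`-sets inside a set `A` with at most `β n` elements. -/
def T_SUB : Prop :=
  ∀ (β : ℝ) (n k : ℕ) (A : Finset (Fin n)), 0 ≤ β → (A.card : ℝ) ≤ β * n →
    (Nat.card {B : {B : Finset (Fin n) // B.card = k} // B.1 ⊆ A} : ℝ) ≤
      β ^ k * Nat.card {B : Finset (Fin n) // B.card = k}

/-- EXX: few sequences of scopes violate `H1`. -/
def T_EXX : Prop :=
  ∀ (ε β : ℝ) (n k M w s₀ : ℕ), 0 < ε → 0 < β → (w + k : ℝ) ≤ β * n →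
    M * β ^ k ≤ 2 ^ (-(ε * k)) → 2 * (n : ℝ) ≤ ε * k * (s₀ + 1) →
    2 ^ n * Nat.card {e : Scopes n k M // ¬ H1 (en e) w s₀} ≤ Nat.card (Scopes n k M)

/-! ### The assignment side -/

/-- KRX: the kernels of the function `i` are a chain. -/
def T_KRX : Prop :=
  ∀ {n M k : ℕ} (g : Fin M → Fin k → Fin n) (r w : ℕ) (f : ℕ → (Fin n → Bool) → ℝ) (i : ℕ),
    IsChain (· ⊆ ·) (KR g r w f i) ∧ ∀ K ∈ KR g r w f i, ∀ p ∈ K, p.1.card < w

/-- EBX: the number of the exceptions of real functions. -/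
def T_EBX : Prop :=
  ∀ {n M k : ℕ} (g : Fin M → Fin k → Fin n) (r w d s₀ : ℕ), 1 ≤ r → 1 ≤ d → w ≤ n → H1 g w s₀ →
    ∀ (f : ℕ → (Fin n → Bool) → ℝ) (i : ℕ), (ER g r w f i).card ≤ i * tau n r w d s₀

/-! ### The proofs -/

/-- PRX: every derived inequality has a small cover, and the formula hits its kernel. -/
def T_PRX : Prop :=
  ∀ {n M k : ℕ} (g : Fin M → Fin k → Fin n) (r w m q t : ℕ), (∀ j, Function.Injective (g j)) →
    t + t * q ≤ r → ∀ (f : ℕ → (Fin n → Bool) → ℝ) (F : Fin m → U M k) (s : ℕ),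
    (∀ i, i < s → ¬ Bad g q (KR g r w f i) F) → ∀ (i : ℕ) (a : ℝ), i < s →
    DerivesR (Set.range (cf g F)) f t i a →
      (∃ T : Finset (U M k), InR F T ∧ T.card ≤ q ∧
        Covers g T (BR (ER g r w f (i + 1)) (f i) a)) ∧
      ∀ p ∈ Ker g r w (BR (ER g r w f i) (f i) a), ∃ j, Ins g p (F j)

/-- CRX: the value of a gate is a derived inequality. -/
def T_CRX : Prop :=
  ∀ {n : ℕ} (Φ : Set (Clause n)) (t s : ℕ) (h : ℕ → Set (Clause n) → ℝ), 1 ≤ t →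
    Circuit t s h → ∀ (i : ℕ) (a : ℝ), i < s → a ≤ h i Φ →
      DerivesR Φ (fun j x => h j (SatBy x)) t i a

/-! ### Assembly -/

/-- ABX: part (1). -/
def T_ABX : Prop :=
  ∀ {n M k μ : ℕ} (g : Fin M → Fin k → Fin n) (γ : ℝ) (t w d s₀ r q : ℕ),
    (∀ j, Function.Injective (g j)) → H1 g w s₀ → ParX γ n t k μ w d s₀ r q →
    ∀ (𝓛 : Finset (Line n)) (L : Line n),
      Few γ n t 𝓛.card (Nat.card {x // x ∉ L})
        (Nat.card {σ : Signs n M μ // Pool.Agent.H53.MC.Derives (cf g (FG g σ)) 𝓛 t L})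
        (Nat.card (Signs n M μ))

/-- ARX: part (2). -/
def T_ARX : Prop :=
  ∀ {n M k μ : ℕ} (g : Fin M → Fin k → Fin n) (γ : ℝ) (t w d s₀ r q : ℕ),
    (∀ j, Function.Injective (g j)) → H1 g w s₀ → ParX γ n t k μ w d s₀ r q →
    ∀ (s : ℕ) (f : ℕ → (Fin n → Bool) → ℝ) (i : ℕ) (a : ℝ), i < s →
      Few γ n t s (Nat.card {x // f i x < a})
        (Nat.card {σ : Signs n M μ // DerivesR (Set.range (cf g (FG g σ))) f t i a})
        (Nat.card (Signs n M μ))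

/-- NMX: the parameters. -/
def T_NMX : Prop :=
  ∃ C : ℕ, ∀ (ε β : ℝ) (n t k μ : ℕ), 0 < ε → ε < β → β ≤ 1 → 2 ≤ t → n ≤ t →
    C * Nat.log 2 t ≤ ε ^ 3 * k → C * k ≤ ε * n → C * t ^ 2 * μ ≤ 2 ^ k →
      ∃ w d s₀ r q : ℕ, ParX (β - ε) n t k μ w d s₀ r q ∧ (w + k : ℝ) ≤ β * n ∧
        2 * (n : ℝ) ≤ ε * k * (s₀ + 1)

/-- GDX: scopes with `H1` are good. -/
def T_GDX : Prop :=
  ∀ {n k M μ : ℕ} (γ : ℝ) (t w d s₀ r q : ℕ), ParX γ n t k μ w d s₀ r q →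
    ∀ e : Scopes n k M, H1 (en e) w s₀ → Good γ t μ e

/-- FIN: the final statement. -/
def T_FIN : Prop := Main

end Pool.Agent.H15.FLX
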